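import Pool.Agent.H12.UT.Targets2

/-!
MP_8b378c_ag, universal torsors: the group `H` (row HGX).
-/

open Polynomial
open Pool.Agent.H12.UT

namespace Pool.Agent.H32.UT

theorem N3_mul {S : Type*} [CommRing S] (τ : Fin 3 → S ≃+* S) (f g : S) :
    N3 τ (f * g) = N3 τ f * N3 τ g := by
  simp only [N3, map_mul]
  ring

theorem N3_one {S : Type*} [CommRing S] (τ : Fin 3 → S ≃+* S) : N3 τ (1 : S) = 1 := by
  simp only [N3, map_one, mul_one]

/-- The quadratic polynomial of `p` splits where `x ^ 2 + 1` is a square. -/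
theorem quad_split {κ L M : Type} [Field κ] [Field L] [Field M] [Algebra κ L] [Algebra κ M]
    (x : κ) (p : L) (hp : p ≠ 0) (h2 : (2 : κ) ≠ 0) (hx : algebraMap κ L x = (p - p⁻¹) / 2)
    (hsq : IsSquare (algebraMap κ M (x ^ 2 + 1))) :
    IsIntegral κ p ∧ ((minpoly κ p).map (algebraMap κ M)).Splits := by
  have h2L : (2 : L) ≠ 0 := by
    have h := (map_ne_zero (algebraMap κ L)).mpr h2
    rwa [map_ofNat] at h
  set q : κ[X] := X ^ 2 - C (2 * x) * X - 1 with hq
  have hmonic : q.Monic := by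
    rw [hq]
    monicity!
  have hroot : aeval p q = 0 := by
    rw [hq]
    simp only [map_sub, map_mul, map_pow, aeval_X, aeval_C, map_one, map_ofNat, hx]
    field_simp
    ring
  have hint : IsIntegral κ p := ⟨q, hmonic, by rw [← aeval_def]; exact hroot⟩
  refine ⟨hint, ?_⟩
  obtain ⟨α, hα⟩ := hsq
  have hdvd : minpoly κ p ∣ q := minpoly.dvd κ p hroot
  have hmap : (minpoly κ p).map (algebraMap κ M) ∣ q.map (algebraMap κ M) :=
    Polynomial.map_dvd _ hdvd
  have hfac : q.map (algebraMap κ M) =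
      (X - C (algebraMap κ M x + α)) * (X - C (algebraMap κ M x - α)) := by
    rw [hq]
    simp only [Polynomial.map_sub, Polynomial.map_mul, Polynomial.map_pow, map_X, map_C,
      Polynomial.map_one, C_add, C_sub, map_mul, map_ofNat, Polynomial.map_ofNat]
    have h1 : (C α * C α : M[X]) = C (algebraMap κ M x) ^ 2 + 1 := by
      rw [← C_mul, ← hα]
      simp
    linear_combination h1
  refine Splits.of_dvd ?_ ((hmonic.map (algebraMap κ M)).ne_zero) hmap
  rw [hfac]
  exact (Splits.X_sub_C _).mul (Splits.X_sub_C _)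

theorem pf_HGX : T_HGX := by
  rintro hGAL ⟨L, iF, iA, σ, p, hLD⟩
  obtain ⟨hfd, hN⟩ := hGAL L σ p hLD
  have h2 : (2 : Kap) ≠ 0 := two_ne_zero
  refine ⟨fun c => c ≠ 0 ∧ ∃ s f : L, s ≠ 0 ∧ f ≠ 0 ∧
    algebraMap Kap L c = s ^ 2 * N3 (fun i => (σ i).toRingEquiv) f, ⟨?_, ?_, ?_⟩, ?_⟩
  · intro c hc
    refine ⟨pow_ne_zero 2 hc, algebraMap Kap L c, 1, ?_, one_ne_zero, ?_⟩
    · exact (map_ne_zero (algebraMap Kap L)).mpr hc
    · rw [N3_one, mul_one, map_pow]
  · rintro x y ⟨hx, s, f, hs, hf, h1⟩ ⟨hy, s', f', hs', hf', h1'⟩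
    refine ⟨mul_ne_zero hx hy, s * s', f * f', mul_ne_zero hs hs', mul_ne_zero hf hf', ?_⟩
    rw [map_mul, h1, h1', N3_mul]
    ring
  · intro M _ _ _ ha hb hd θ hθ
    have hsplit : ∀ i : Fin 3, IsSquare (algebraMap Kap M (xx i ^ 2 + 1)) := by
      intro i
      fin_cases i
      · exact ha
      · exact hb
      · exact hd
    have hne : Nonempty (L →ₐ[Kap] M) := by
      refine IntermediateField.nonempty_algHom_of_adjoin_splits (S := Set.range p) ?_ hLD.gen
      rintro _ ⟨i, rfl⟩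
      exact quad_split (xx i) (p i) (hLD.ne i) h2 (hLD.xp i) (hsplit i)
    obtain ⟨i⟩ := hne
    let _ : Algebra L M := i.toRingHom.toAlgebra
    have : IsScalarTower Kap L M := IsScalarTower.of_algebraMap_eq (fun x => (i.commutes x).symm)
    have : FiniteDimensional L M := FiniteDimensional.right Kap L M
    have hnn : Algebra.norm Kap θ = Algebra.norm Kap (Algebra.norm L θ) :=
      Algebra.norm_norm.symm
    refine ⟨?_, 1, Algebra.norm L θ, one_ne_zero, ?_, ?_⟩
    · exact Algebra.norm_ne_zero_iff.mpr hθ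
    · exact Algebra.norm_ne_zero_iff.mpr hθ
    · rw [hnn, hN, one_pow, one_mul]
  · rintro ⟨-, s, f, hs, hf, h1⟩
    refine hLD.neg f s⁻¹ hf (inv_ne_zero hs) ?_
    rw [map_neg, map_one] at h1
    field_simp
    rw [mul_comm]
    exact h1.symm

end Pool.Agent.H32.UT
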