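import Pool.Agent.H12.UT.Targets2

/-!
MP_8b378c_ag, universal torsors: the walk on the Newton polygon (row NP).
-/

open Polynomial
open Pool.Agent.H12.UT

namespace Pool.Agent.H32.UT

theorem np_step (S : Finset ℕ) (o : ℕ → ℝ) (R : ℕ → ℕ → Prop)
    (hedge : ∀ s : ℝ, ∀ i ∈ S, ∀ j ∈ S, o i + s * i = o j + s * j →
      (∀ k ∈ S, o i + s * i ≤ o k + s * k) →
      (∀ k ∈ S, o k + s * k = o i + s * i → i ≤ k ∧ k ≤ j) → R i j)
    (j : ℕ) (hj : j ∈ S) (s : ℝ)
    (hgt : ∀ k ∈ S, j < k → o j + s * j < o k + s * k)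
    (hlt : ∀ k ∈ S, k < j → o j + s * j ≤ o k + s * k)
    (hne : ∃ k ∈ S, j < k) :
    ∃ j' ∈ S, j < j' ∧ R j j' ∧ ∃ s' : ℝ,
      (∀ k ∈ S, j' < k → o j' + s' * j' < o k + s' * k) ∧
      (∀ k ∈ S, k < j' → o j' + s' * j' ≤ o k + s' * k) := by
  classical
  have hS' : (S.filter (fun k => j < k)).Nonempty := by
    obtain ⟨k, hk, hjk⟩ := hne
    exact ⟨k, Finset.mem_filter.mpr ⟨hk, hjk⟩⟩
  obtain ⟨m, hm, hmax⟩ := Finset.exists_max_image (S.filter (fun k => j < k))
    (fun k : ℕ => (o j - o k) / ((k : ℝ) - j)) hS'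
  obtain ⟨hmS, hjm⟩ := Finset.mem_filter.mp hm
  set s' : ℝ := (o j - o m) / ((m : ℝ) - j) with hs'
  have hjm' : (0 : ℝ) < (m : ℝ) - j := by
    have : (j : ℝ) < m := by exact_mod_cast hjm
    linarith
  have hS1 : ∀ k ∈ S, j < k → o j + s' * j ≤ o k + s' * k := by
    intro k hk hjk
    have h1 := hmax k (Finset.mem_filter.mpr ⟨hk, hjk⟩)
    have h2 : (0 : ℝ) < (k : ℝ) - j := by
      have : (j : ℝ) < k := by exact_mod_cast hjk
      linarith
    have h3 : (o j - o k) / ((k : ℝ) - j) ≤ s' := h1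
    rw [div_le_iff₀ h2] at h3
    nlinarith
  have hms : o j + s' * j = o m + s' * m := by
    have : s' * ((m : ℝ) - j) = o j - o m := by
      rw [hs']
      field_simp
    nlinarith
  have hss : s' < s := by
    have h1 := hgt m hmS hjm
    by_contra hcon
    push Not at hcon
    have h2 : s * ((m : ℝ) - j) ≤ s' * ((m : ℝ) - j) := mul_le_mul_of_nonneg_right hcon hjm'.le
    nlinarith
  have hS2 : ∀ k ∈ S, k < j → o j + s' * j < o k + s' * k := by
    intro k hk hkj
    have h1 := hlt k hk hkj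
    have h2 : (k : ℝ) < j := by exact_mod_cast hkj
    have h3 : 0 < (s - s') * ((j : ℝ) - k) := mul_pos (by linarith) (by linarith)
    nlinarith
  have hT : ((S.filter (fun k => j < k)).filter
      (fun k => o j + s' * j = o k + s' * k)).Nonempty :=
    ⟨m, Finset.mem_filter.mpr ⟨hm, hms⟩⟩
  set T := (S.filter (fun k => j < k)).filter (fun k => o j + s' * j = o k + s' * k) with hTdef
  have hmem := Finset.max'_mem T hT
  set j' := T.max' hT with hj'
  obtain ⟨hm1, hm2⟩ := Finset.mem_filter.mp hmem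
  obtain ⟨hj'S, hjj'⟩ := Finset.mem_filter.mp hm1
  refine ⟨j', hj'S, hjj', ?_, s', ?_, ?_⟩
  · refine hedge s' j hj j' hj'S hm2 ?_ ?_
    · intro k hk
      rcases lt_trichotomy k j with h | h | h
      · exact (hS2 k hk h).le
      · subst h
        exact le_rfl
      · exact hS1 k hk h
    · intro k hk hkj
      rcases lt_trichotomy k j with h | h | h
      · have := hS2 k hk h
        exact absurd hkj (ne_of_gt this)
      · subst h
        exact ⟨le_rfl, hjj'.le⟩
      · refine ⟨h.le, Finset.le_max' T k ?_⟩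
        exact Finset.mem_filter.mpr ⟨Finset.mem_filter.mpr ⟨hk, h⟩, hkj.symm⟩
  · intro k hk hk'
    have h1 := hS1 k hk (hjj'.trans hk')
    rcases lt_or_eq_of_le h1 with h | h
    · rw [← hm2]
      exact h
    · exfalso
      have : k ≤ j' := Finset.le_max' T k
        (Finset.mem_filter.mpr ⟨Finset.mem_filter.mpr ⟨hk, hjj'.trans hk'⟩, h⟩)
      omega
  · intro k hk hk'
    rw [← hm2]
    rcases lt_trichotomy k j with h | h | h
    · exact (hS2 k hk h).le
    · subst h
      exact le_rfl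
    · exact hS1 k hk h

theorem np_ind (S : Finset ℕ) (hS : S.Nonempty) (o : ℕ → ℝ) (R : ℕ → ℕ → Prop)
    (hrefl : ∀ i ∈ S, R i i)
    (htr : ∀ i ∈ S, ∀ j ∈ S, ∀ k ∈ S, R i j → R j k → R i k)
    (hedge : ∀ s : ℝ, ∀ i ∈ S, ∀ j ∈ S, o i + s * i = o j + s * j →
      (∀ k ∈ S, o i + s * i ≤ o k + s * k) →
      (∀ k ∈ S, o k + s * k = o i + s * i → i ≤ k ∧ k ≤ j) → R i j) :
    ∀ n : ℕ, ∀ j ∈ S, S.max' hS - j = n →
      (∃ s : ℝ, (∀ k ∈ S, j < k → o j + s * j < o k + s * k) ∧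
        (∀ k ∈ S, k < j → o j + s * j ≤ o k + s * k)) → R j (S.max' hS) := by
  intro n
  induction n using Nat.strong_induction_on with
  | _ n ih =>
    intro j hj hn hs
    obtain ⟨s, h1, h2⟩ := hs
    have hle : j ≤ S.max' hS := Finset.le_max' S j hj
    rcases eq_or_lt_of_le hle with h | h
    · rw [← h]
      exact hrefl j hj
    · obtain ⟨j', hj', hjj', hR, hs'⟩ := np_step S o R hedge j hj s h1 h2
        ⟨S.max' hS, Finset.max'_mem S hS, h⟩
      have hle' : j' ≤ S.max' hS := Finset.le_max' S j' hj'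
      exact htr j hj j' hj' _ (Finset.max'_mem S hS) hR
        (ih (S.max' hS - j') (by omega) j' hj' rfl hs')

theorem pf_NP : T_NP := by
  intro S hS o R hrefl htr hedge
  refine np_ind S hS o R hrefl htr hedge _ (S.min' hS) (Finset.min'_mem S hS) rfl ?_
  set j := S.min' hS with hj
  have hmin : ∀ k ∈ S, j ≤ k := fun k hk => Finset.min'_le S k hk
  obtain ⟨m, hm, hmax⟩ := Finset.exists_max_image S
    (fun k : ℕ => |o j - o k|) hS
  refine ⟨|o j - o m| + 1, ?_, ?_⟩
  · intro k hk hjk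
    have h1 := hmax k hk
    have h2 : (1 : ℝ) ≤ (k : ℝ) - j := by
      have : ((j + 1 : ℕ) : ℝ) ≤ k := by exact_mod_cast hjk
      push_cast at this
      linarith
    have h3 : o j - o k ≤ |o j - o k| := le_abs_self _
    have h1' : |o j - o k| ≤ |o j - o m| := h1
    have h4 : (|o j - o m| + 1) * 1 ≤ (|o j - o m| + 1) * ((k : ℝ) - j) :=
      mul_le_mul_of_nonneg_left h2 (by positivity)
    nlinarith
  · intro k hk hkj
    exact absurd hkj (not_lt.mpr (hmin k hk))

end Pool.Agent.H32.UT
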