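import Pool.Agent.H12.UT.Targets2

/-!
MP_8b378c_ag, universal torsors: the embedding of `ℚ(x, y, z)` into `ℚ(p, q, r)` (row PHI).
-/

open Polynomial
open Pool.Agent.H12.UT

namespace Pool.Agent.H32.UT

theorem pf_PHI : T_PHI := by
  have hinjS : Function.Injective (algebraMap (MvPolynomial (Fin 3) ℚ) S3) := by
    refine IsLocalization.injective S3 (M := Submonoid.powers
      (MvPolynomial.X 0 * MvPolynomial.X 1 * MvPolynomial.X 2 : MvPolynomial (Fin 3) ℚ)) ?_
    exact powers_le_nonZeroDivisors_of_noZeroDivisors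
      (mul_ne_zero (mul_ne_zero (MvPolynomial.X_ne_zero _) (MvPolynomial.X_ne_zero _))
        (MvPolynomial.X_ne_zero _))
  have hinjF : Function.Injective (algebraMap S3 (FractionRing S3)) :=
    IsFractionRing.injective S3 (FractionRing S3)
  set g0 : MvPolynomial (Fin 3) ℚ →+* FractionRing S3 :=
    (algebraMap S3 (FractionRing S3)).comp (algebraMap (MvPolynomial (Fin 3) ℚ) S3) with hg0
  have hg0inj : Function.Injective g0 := hinjF.comp hinjS
  set p : Fin 3 → FractionRing S3 := fun i => algebraMap S3 (FractionRing S3) (xS i) with hp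
  have hpX : ∀ i, g0 (MvPolynomial.X i) = p i := fun i => rfl
  have hp0 : ∀ i, p i ≠ 0 := by
    intro i h
    rw [← hpX i, ← map_zero g0] at h
    exact MvPolynomial.X_ne_zero i (hg0inj h)
  have hcharF : CharZero (FractionRing S3) :=
    charZero_of_injective_ringHom (f := g0.comp MvPolynomial.C)
      (hg0inj.comp (MvPolynomial.C_injective (Fin 3) ℚ))
  have hcomm : ∀ r : ℚ, g0 (algebraMap ℚ (MvPolynomial (Fin 3) ℚ) r) =
      algebraMap ℚ (FractionRing S3) r := by
    intro r
    have h1 : (g0.comp (algebraMap ℚ (MvPolynomial (Fin 3) ℚ))) =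
      algebraMap ℚ (FractionRing S3) := Subsingleton.elim _ _
    exact congrArg (fun h : ℚ →+* FractionRing S3 => h r) h1
  let g0a : MvPolynomial (Fin 3) ℚ →ₐ[ℚ] FractionRing S3 :=
    { g0 with commutes' := hcomm }
  have hpind : AlgebraicIndependent ℚ p := by
    have h := (MvPolynomial.algebraicIndependent_X (Fin 3) ℚ).map' (f := g0a) hg0inj
    exact h
  set t : Fin 3 → FractionRing S3 := fun i => (p i - (p i)⁻¹) / 2 with ht
  have hle : Cardinal.mk (Fin 3) ≤ Algebra.trdeg ℚ (FractionRing S3) :=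
    hpind.cardinalMk_le_trdeg
  have h2 : (2 : FractionRing S3) ≠ 0 := two_ne_zero
  have halgp : ∀ i, IsAlgebraic (Algebra.adjoin ℚ (Set.range t)) (p i) := by
    intro i
    set ti : Algebra.adjoin ℚ (Set.range t) :=
      ⟨t i, Algebra.subset_adjoin ⟨i, rfl⟩⟩ with hti
    refine ⟨X ^ 2 - C (2 * ti) * X - 1, ?_, ?_⟩
    · have hmon : (X ^ 2 - C (2 * ti) * X - 1 : (Algebra.adjoin ℚ (Set.range t))[X]).Monic := by
        monicity!
      exact hmon.ne_zero
    · simp only [map_sub, map_mul, map_pow, aeval_X, aeval_C, map_one, map_ofNat]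
      have h3 : algebraMap (Algebra.adjoin ℚ (Set.range t)) (FractionRing S3) ti = t i := rfl
      rw [h3, ht]
      simp only
      have := hp0 i
      field_simp
      ring
  have halg0 : ∀ f : MvPolynomial (Fin 3) ℚ,
      IsAlgebraic (Algebra.adjoin ℚ (Set.range t)) (g0 f) := by
    intro f
    induction f using MvPolynomial.induction_on with
    | C a =>
      have h1 : g0 (MvPolynomial.C a) = algebraMap (Algebra.adjoin ℚ (Set.range t))
          (FractionRing S3) (algebraMap ℚ _ a) := g0a.commutes a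
      rw [h1]
      exact isAlgebraic_algebraMap _
    | add f g hf hg =>
      rw [map_add]
      exact hf.add hg
    | mul_X f i hf =>
      rw [map_mul, hpX]
      exact hf.mul (halgp i)
  have halgS : ∀ z : S3, IsAlgebraic (Algebra.adjoin ℚ (Set.range t))
      (algebraMap S3 (FractionRing S3) z) := by
    intro z
    obtain ⟨n, a, hna⟩ := IsLocalization.Away.surj
      (MvPolynomial.X 0 * MvPolynomial.X 1 * MvPolynomial.X 2 : MvPolynomial (Fin 3) ℚ) z
    have h1 : algebraMap S3 (FractionRing S3) z *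
        g0 (MvPolynomial.X 0 * MvPolynomial.X 1 * MvPolynomial.X 2) ^ n = g0 a := by
      have := congrArg (algebraMap S3 (FractionRing S3)) hna
      rw [map_mul, map_pow] at this
      exact this
    have h0 : g0 (MvPolynomial.X 0 * MvPolynomial.X 1 * MvPolynomial.X 2) ≠ 0 := by
      rw [map_mul, map_mul, hpX, hpX, hpX]
      exact mul_ne_zero (mul_ne_zero (hp0 0) (hp0 1)) (hp0 2)
    have h3 : algebraMap S3 (FractionRing S3) z = g0 a *
        (g0 (MvPolynomial.X 0 * MvPolynomial.X 1 * MvPolynomial.X 2) ^ n)⁻¹ :=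
      (eq_mul_inv_iff_mul_eq₀ (pow_ne_zero n h0)).mpr h1
    rw [h3]
    exact (halg0 a).mul ((halg0 _).pow n).inv
  have halg : Algebra.IsAlgebraic (Algebra.adjoin ℚ (Set.range t)) (FractionRing S3) := by
    refine ⟨fun z => ?_⟩
    obtain ⟨a, b, -, hab⟩ := IsFractionRing.div_surjective S3 z
    rw [← hab, div_eq_mul_inv]
    exact (halgS a).mul (halgS b).inv
  have htb : IsTranscendenceBasis ℚ t :=
    Algebra.IsAlgebraic.isTranscendenceBasis_of_le_trdeg_of_finite ℚ t hle
  have hinj : Function.Injective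
      (MvPolynomial.aeval t : MvPolynomial (Fin 3) ℚ →ₐ[ℚ] FractionRing S3).toRingHom := htb.1
  refine ⟨IsFractionRing.lift hinj, fun i => ?_⟩
  rw [xx, IsFractionRing.lift_algebraMap]
  change MvPolynomial.aeval t (MvPolynomial.X i) = _
  rw [MvPolynomial.aeval_X]

end Pool.Agent.H32.UT
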